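import Pool.Agent.TFH.St
import Pool.Agent.PTH.PaFin

/-!
# Property (T) factors in ultrapowers of Haagerup factors (MP_517fed_an, Q1)

Let `M` be a II₁ factor with property (T), `N` a II₁ factor with the Haagerup property, `ω` a free
ultrafilter on `ℕ`, and `θ` a unital trace preserving *-homomorphism of `M` to the ultrapower
`N^ω`.  Then there are finite dimensional (unital) *-subalgebras `D n` of `N` such that
`θ(M) ⊆ ∏_ω D n`.
-/

open Filter Topology
open Pool.Agent.TFH Pool.Agent.TFH.St

universe u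

namespace Pool.Agent.Results.MP_517fed_an.HaagerupUltrapower

theorem result {M N : Type u} [CStarAlgebra M] [TracialVN M] [CStarAlgebra N] [TracialVN N]
    (hM : IsFactorII1 M) (hT : PropT M) (hN : IsFactorII1 N) (hH : Haagerup N)
    (ω : Ultrafilter ℕ) (hω : (ω : Filter ℕ) ≤ cofinite)
    (θ : M →⋆ₐ[ℂ] Ultrapower N ω) (hθ : ∀ x, Ultrapower.tr (θ x) = tau x) :
    ∃ D : ℕ → StarSubalgebra ℂ N, (∀ n, FiniteDimensional ℂ (D n)) ∧
      ∀ x, θ x ∈ prodSub ω D :=
  Pool.Agent.PTH.pa_final M N hM (propT M hT) hN hH ω hω θ hθ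

end Pool.Agent.Results.MP_517fed_an.HaagerupUltrapower
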